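import Pool.Agent.Y278.MK.Stm

set_option autoImplicit false

/-! Project MK (helper278), job MK-MINK: the interior of `K + t L`. -/

namespace Pool.Agent.Y220.MK

open Set Real Filter Topology Pointwise
open Pool.Agent.Y278.MK

/-- the support function of a compact set is continuous -/
theorem supp_cont {K : Set ℂ} (hK : IsCompact K) {h : ℝ → ℝ}
    (hh : ∀ θ : ℝ, IsGreatest ((fun x : ℂ => x.re * cos θ + x.im * sin θ) '' K) (h θ)) :
    Continuous h := by
  have h1 : h = fun θ : ℝ => sSup ((fun x : ℂ => x.re * cos θ + x.im * sin θ) '' K) := by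
    funext θ
    exact (hh θ).csSup_eq.symm
  rw [h1]
  refine hK.continuous_sSup (f := fun (θ : ℝ) (x : ℂ) => x.re * cos θ + x.im * sin θ) ?_
  have : Continuous fun p : ℝ × ℂ => p.2.re * cos p.1 + p.2.im * sin p.1 := by fun_prop
  exact this

theorem mink_thm : S_MINK := by
  intro K L h k t hK hKc _ hL hLc _ ht hh hk
  set M : Set ℂ := {z : ℂ | ∃ x ∈ K, ∃ y ∈ L, z = x + t • y} with hM
  set g : ℝ → ℝ := fun θ => h θ + t * k θ with hg
  have hM' : M = K + t • L := by
    ext z
    rw [hM, Set.mem_add]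
    simp only [Set.mem_smul_set]
    constructor
    · rintro ⟨x, hx, y, hy, rfl⟩
      exact ⟨x, hx, t • y, ⟨y, hy, rfl⟩, rfl⟩
    · rintro ⟨x, hx, _, ⟨y, hy, rfl⟩, rfl⟩
      exact ⟨x, hx, y, hy, rfl⟩
  have hMc : IsCompact M := by
    rw [hM']
    exact hK.add (hL.smul t)
  have hMv : Convex ℝ M := by
    rw [hM']
    exact hKc.add (hLc.smul t)
  have hgc : Continuous g := (supp_cont hK hh).add (continuous_const.mul (supp_cont hL hk))
  have hle : ∀ z ∈ M, ∀ θ : ℝ, z.re * cos θ + z.im * sin θ ≤ g θ := by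
    rintro z ⟨x, hx, y, hy, rfl⟩ θ
    have h1 := (hh θ).2 ⟨x, hx, rfl⟩
    have h2 := (hk θ).2 ⟨y, hy, rfl⟩
    have h3 := mul_le_mul_of_nonneg_left h2 ht.le
    simp only [Complex.add_re, Complex.add_im, Complex.smul_re, Complex.smul_im, smul_eq_mul]
    simp only at h1 h3
    rw [hg]
    dsimp only
    linarith
  have hex : ∀ θ : ℝ, ∃ z ∈ M, z.re * cos θ + z.im * sin θ = g θ := by
    intro θ
    obtain ⟨x, hx, h1⟩ := (hh θ).1
    obtain ⟨y, hy, h2⟩ := (hk θ).1
    refine ⟨x + t • y, ⟨x, hx, y, hy, rfl⟩, ?_⟩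
    simp only [Complex.add_re, Complex.add_im, Complex.smul_re, Complex.smul_im, smul_eq_mul]
    simp only at h1 h2
    rw [hg]
    dsimp only
    rw [← h1, ← h2]
    ring
  ext x
  constructor
  · intro hx θ
    rw [mem_interior_iff_mem_nhds, Metric.mem_nhds_iff] at hx
    obtain ⟨ε, hε, hb⟩ := hx
    have h1 : x + ((ε / 2 : ℝ) : ℂ) * (cos θ + sin θ * Complex.I) ∈ Metric.ball x ε := by
      rw [Metric.mem_ball, dist_eq_norm, add_sub_cancel_left, norm_mul, Complex.norm_real,
        Real.norm_of_nonneg (by positivity), Complex.norm_add_mul_I, Real.cos_sq_add_sin_sq,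
        Real.sqrt_one]
      linarith
    have h2 := hle _ (hb h1) θ
    have h3 : (x + ((ε / 2 : ℝ) : ℂ) * (cos θ + sin θ * Complex.I)).re =
        x.re + ε / 2 * cos θ := by
      simp [-Complex.ofReal_cos, -Complex.ofReal_sin]
    have h4 : (x + ((ε / 2 : ℝ) : ℂ) * (cos θ + sin θ * Complex.I)).im =
        x.im + ε / 2 * sin θ := by
      simp [-Complex.ofReal_cos, -Complex.ofReal_sin]
    rw [h3, h4] at h2
    have h5 := Real.cos_sq_add_sin_sq θ
    show x.re * cos θ + x.im * sin θ < g θ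
    nlinarith
  · intro hx
    have hx' : ∀ θ : ℝ, x.re * cos θ + x.im * sin θ < g θ := hx
    obtain ⟨θ₀, -, hmin⟩ := isCompact_Icc.exists_isMinOn (s := Icc (-π) π)
      (f := fun θ => g θ - (x.re * cos θ + x.im * sin θ))
      (nonempty_Icc.2 (by linarith [Real.pi_pos])) (by fun_prop)
    set ε : ℝ := g θ₀ - (x.re * cos θ₀ + x.im * sin θ₀) with hε
    have hεpos : 0 < ε := by
      have := hx' θ₀
      linarith
    rw [mem_interior_iff_mem_nhds, Metric.mem_nhds_iff]
    refine ⟨ε, hεpos, fun y hy => ?_⟩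
    by_contra hyM
    obtain ⟨f, u, h1, h2⟩ := geometric_hahn_banach_closed_point hMv hMc.isClosed hyM
    set w : ℂ := ⟨f 1, f Complex.I⟩ with hw
    have hf : ∀ z : ℂ, f z = ‖w‖ * (z.re * cos (Complex.arg w) + z.im * sin (Complex.arg w)) := by
      intro z
      have e1 : z = z.re • (1 : ℂ) + z.im • Complex.I := by
        apply Complex.ext <;> simp
      have e2 : f z = z.re * f 1 + z.im * f Complex.I := by
        conv_lhs => rw [e1]
        rw [map_add, map_smul, map_smul, smul_eq_mul, smul_eq_mul]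
      have e3 : ‖w‖ * cos (Complex.arg w) = f 1 := Complex.norm_mul_cos_arg w
      have e4 : ‖w‖ * sin (Complex.arg w) = f Complex.I := Complex.norm_mul_sin_arg w
      rw [e2, ← e3, ← e4]
      ring
    set θ : ℝ := Complex.arg w with hθ
    obtain ⟨z, hz, hzg⟩ := hex θ
    have h3 := (h1 z hz).trans h2
    rw [hf z, hf y, hzg] at h3
    have hw0 : 0 < ‖w‖ := by
      rcases (norm_nonneg w).eq_or_lt with h0 | h0
      · rw [← h0, zero_mul, zero_mul] at h3
        exact absurd h3 (lt_irrefl _)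
      · exact h0
    have h4 : g θ < y.re * cos θ + y.im * sin θ := lt_of_mul_lt_mul_left h3 hw0.le
    have h5 : ε ≤ g θ - (x.re * cos θ + x.im * sin θ) :=
      hmin (show θ ∈ Icc (-π) π from ⟨(Complex.neg_pi_lt_arg w).le, Complex.arg_le_pi w⟩)
    have h6 : (y - x).re * cos θ + (y - x).im * sin θ ≤ ‖y - x‖ := by
      have e : ((y - x).re * cos θ + (y - x).im * sin θ) ^ 2 ≤ ‖y - x‖ ^ 2 := by
        rw [Complex.sq_norm, Complex.normSq_apply]
        have := Real.cos_sq_add_sin_sq θ
        nlinarith [sq_nonneg ((y - x).re * sin θ - (y - x).im * cos θ)]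
      exact (le_abs_self _).trans (abs_le_of_sq_le_sq e (norm_nonneg _))
    rw [Metric.mem_ball, dist_eq_norm] at hy
    simp only [Complex.sub_re, Complex.sub_im] at h6
    linarith

end Pool.Agent.Y220.MK
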